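import Pool.Agent.H137R4.JN.Defs

namespace H137JN

open scoped Classical
open Module

/-- The plane `x₀ + t x₁ + t² x₂ = c`. -/
def pl (t c : ℝ) : AffineSubspace ℝ Pt where
  carrier := {x | x 0 + t * x 1 + t ^ 2 * x 2 = c}
  smul_vsub_vadd_mem' := by
    intro a p q r hp hq hr
    simp only [Set.mem_ofPred_eq, vsub_eq_sub, vadd_eq_add, Pi.add_apply, Pi.smul_apply,
      Pi.sub_apply, smul_eq_mul] at *
    linear_combination a * hp - a * hq + hr

theorem mem_pl {t c : ℝ} {x : Pt} : x ∈ pl t c ↔ x 0 + t * x 1 + t ^ 2 * x 2 = c := Iff.rfl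

/-- A direction vector of the intersection of two planes. -/
def dv (s t : ℝ) : Pt := ![s * t, -(s + t), 1]

@[simp] theorem dv0 (s t : ℝ) : dv s t 0 = s * t := rfl
@[simp] theorem dv1 (s t : ℝ) : dv s t 1 = -(s + t) := rfl
@[simp] theorem dv2 (s t : ℝ) : dv s t 2 = 1 := rfl

theorem pl_nonempty (t c : ℝ) : (pl t c : Set Pt).Nonempty :=
  ⟨![c, 0, 0], by
    show (![c, 0, 0] : Pt) ∈ pl t c
    rw [mem_pl]; simp⟩

theorem mem_dir_pl {t c : ℝ} {v : Pt} :
    v ∈ (pl t c).direction ↔ v 0 + t * v 1 + t ^ 2 * v 2 = 0 := by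
  obtain ⟨p, hp⟩ := pl_nonempty t c
  have hp' : p ∈ pl t c := hp
  rw [← AffineSubspace.vadd_mem_iff_mem_direction v hp']
  rw [mem_pl] at hp' ⊢
  simp only [vadd_eq_add, Pi.add_apply]
  constructor
  · intro h; linear_combination h - hp'
  · intro h; linear_combination h + hp'

/-- a base point of the intersection -/
noncomputable def bp (s A t B : ℝ) : Pt := ![A - s * ((B - A) / (t - s)), (B - A) / (t - s), 0]

theorem bp_mem {s A t B : ℝ} (h : s ≠ t) : bp s A t B ∈ pl s A ⊓ pl t B := by
  have h' : t - s ≠ 0 := sub_ne_zero.2 h.symm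
  refine ⟨?_, ?_⟩
  · show bp s A t B ∈ pl s A
    rw [mem_pl]; simp [bp]
  · show bp s A t B ∈ pl t B
    rw [mem_pl]; simp [bp]; field_simp; ring

theorem mem_dir_inf {s A t B : ℝ} (h : s ≠ t) {v : Pt} :
    v ∈ (pl s A ⊓ pl t B).direction ↔ v = v 2 • dv s t := by
  rw [AffineSubspace.direction_inf_of_mem_inf (bp_mem h), Submodule.mem_inf, mem_dir_pl, mem_dir_pl]
  constructor
  · rintro ⟨h1, h2⟩
    have h3 : v 1 = -(s + t) * v 2 := by
      have : (s - t) * (v 1 + (s + t) * v 2) = 0 := by linear_combination h1 - h2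
      rcases mul_eq_zero.1 this with h4 | h4
      · exact absurd (sub_eq_zero.1 h4) h
      · linear_combination h4
    have h4 : v 0 = s * t * v 2 := by linear_combination h1 - s * h3
    funext i
    fin_cases i
    · simp [dv]; linear_combination h4
    · simp [dv]; linear_combination h3
    · simp [dv]
  · intro hv
    have h0 := congrFun hv 0
    have h1 := congrFun hv 1
    simp only [Pi.smul_apply, smul_eq_mul, dv0, dv1] at h0 h1
    constructor
    · linear_combination h0 + s * h1
    · linear_combination h0 + t * h1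

theorem dv_mem_dir {s A t B : ℝ} (h : s ≠ t) : dv s t ∈ (pl s A ⊓ pl t B).direction := by
  rw [mem_dir_inf h]; simp

theorem isLine_inf {s A t B : ℝ} (h : s ≠ t) : IsLine (pl s A ⊓ pl t B) := by
  refine ⟨⟨_, bp_mem h⟩, ?_⟩
  rw [finrank_eq_one_iff']
  refine ⟨⟨dv s t, dv_mem_dir h⟩, ?_, ?_⟩
  · intro h0
    have := congrFun (congrArg Subtype.val h0) 2
    simp at this
  · rintro ⟨w, hw⟩
    refine ⟨w 2, ?_⟩
    apply Subtype.ext
    show w 2 • dv s t = w
    exact ((mem_dir_inf h).1 hw).symm

/-- which planes of the family contain the line -/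
theorem line_le_pl {s A t B u C : ℝ} (h : s ≠ t) (hle : pl s A ⊓ pl t B ≤ pl u C) :
    (u = s ∧ C = A) ∨ (u = t ∧ C = B) := by
  have h1 := AffineSubspace.direction_le hle (dv_mem_dir h)
  rw [mem_dir_pl] at h1
  simp only [dv0, dv1, dv2] at h1
  have h2 : (u - s) * (u - t) = 0 := by linear_combination h1
  have h3 := hle (bp_mem h)
  have h4 := bp_mem (A := A) (B := B) h
  rcases mul_eq_zero.1 h2 with h5 | h5
  · left
    have hu : u = s := sub_eq_zero.1 h5
    refine ⟨hu, ?_⟩
    have h6 : bp s A t B ∈ pl s A := h4.1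
    have h7 : bp s A t B ∈ pl u C := h3
    rw [mem_pl] at h6 h7
    rw [hu] at h7
    linarith
  · right
    have hu : u = t := sub_eq_zero.1 h5
    refine ⟨hu, ?_⟩
    have h6 : bp s A t B ∈ pl t B := h4.2
    have h7 : bp s A t B ∈ pl u C := h3
    rw [mem_pl] at h6 h7
    rw [hu] at h7
    linarith

/-- Two planes sharing two different lines are equal. -/
theorem plane_eq_pl {π l l' : AffineSubspace ℝ Pt} {u C : ℝ} (hπ : IsPlane π) (hl : IsLine l)
    (hl' : IsLine l') (hne : l ≠ l') (h1 : l ≤ π) (h2 : l' ≤ π) (h3 : l ≤ pl u C)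
    (h4 : l' ≤ pl u C) : π = pl u C := by
  have hinf1 : l ≤ π ⊓ pl u C := le_inf h1 h3
  have hinf2 : l' ≤ π ⊓ pl u C := le_inf h2 h4
  obtain ⟨p, hp⟩ := hl.1
  have hpm : p ∈ π ⊓ pl u C := hinf1 hp
  have hdir : (π ⊓ pl u C).direction = π.direction ⊓ (pl u C).direction :=
    AffineSubspace.direction_inf_of_mem_inf hpm
  by_cases hr : finrank ℝ (π ⊓ pl u C).direction ≤ 1
  · exfalso
    have e1 : l = π ⊓ pl u C := by
      apply AffineSubspace.eq_of_direction_eq_of_nonempty_of_le _ hl.1 hinf1
      apply Submodule.eq_of_le_of_finrank_le (AffineSubspace.direction_le hinf1)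
      rw [hl.2]; exact hr
    have e2 : l' = π ⊓ pl u C := by
      apply AffineSubspace.eq_of_direction_eq_of_nonempty_of_le _ hl'.1 hinf2
      apply Submodule.eq_of_le_of_finrank_le (AffineSubspace.direction_le hinf2)
      rw [hl'.2]; exact hr
    exact hne (e1.trans e2.symm)
  · push Not at hr
    have hle : (π ⊓ pl u C).direction ≤ π.direction := by rw [hdir]; exact inf_le_left
    have e1 : (π ⊓ pl u C).direction = π.direction := by
      apply Submodule.eq_of_le_of_finrank_le hle
      rw [hπ.2]; omega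
    have hle2 : π.direction ≤ (pl u C).direction := by
      rw [← e1, hdir]; exact inf_le_right
    have hlt : finrank ℝ (pl u C).direction < 3 := by
      have : finrank ℝ (pl u C).direction < finrank ℝ Pt := by
        apply Submodule.finrank_lt
        intro htop
        have : (![1, 0, 0] : Pt) ∈ (pl u C).direction := by rw [htop]; trivial
        rw [mem_dir_pl] at this
        simp at this
      simpa using this
    have e2 : π.direction = (pl u C).direction := by
      apply Submodule.eq_of_le_of_finrank_le hle2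
      rw [hπ.2]; omega
    exact AffineSubspace.ext_of_direction_eq e2 ⟨p, hpm.1, hpm.2⟩

/-- Two lines of a plane with independent explicit directions meet. -/
theorem lines_meet {π : AffineSubspace ℝ Pt} (hπ : IsPlane π) {s A t B s' A' t' B' : ℝ}
    (h : s ≠ t) (h' : s' ≠ t') (h1 : pl s A ⊓ pl t B ≤ π) (h2 : pl s' A' ⊓ pl t' B' ≤ π)
    (hd : dv s t ≠ dv s' t') : ∃ q, q ∈ pl s A ⊓ pl t B ∧ q ∈ pl s' A' ⊓ pl t' B' := by
  set p := bp s A t B with hp
  set p' := bp s' A' t' B' with hp'
  have hpm : p ∈ pl s A ⊓ pl t B := bp_mem h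
  have hpm' : p' ∈ pl s' A' ⊓ pl t' B' := bp_mem h'
  have hv : dv s t ∈ π.direction := AffineSubspace.direction_le h1 (dv_mem_dir h)
  have hv' : dv s' t' ∈ π.direction := AffineSubspace.direction_le h2 (dv_mem_dir h')
  have hw : p' - p ∈ π.direction := AffineSubspace.vsub_mem_direction (h2 hpm') (h1 hpm)
  -- three vectors in a two-dimensional space
  let f : Fin 3 → π.direction := ![⟨dv s t, hv⟩, ⟨dv s' t', hv'⟩, ⟨p' - p, hw⟩]
  have hnot : ¬ LinearIndependent ℝ f := by
    intro hli
    have := hli.fintype_card_le_finrank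
    rw [hπ.2] at this
    simp at this
  rw [Fintype.not_linearIndependent_iff] at hnot
  obtain ⟨g, hg, i, hi⟩ := hnot
  have hsum : g 0 • dv s t + g 1 • dv s' t' + g 2 • (p' - p) = 0 := by
    have := congrArg (fun x : π.direction => (x : Pt)) hg
    simpa [Fin.sum_univ_three, f] using this
  have hg2 : g 2 ≠ 0 := by
    intro h0
    rw [h0, zero_smul, add_zero] at hsum
    have e2 := congrFun hsum 2
    simp at e2
    have hg1 : g 1 = - g 0 := by linarith
    by_cases hz : g 0 = 0
    · have hz1 : g 1 = 0 := by rw [hg1, hz, neg_zero]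
      fin_cases i
      · exact hi hz
      · exact hi hz1
      · exact hi h0
    · apply hd
      have : g 0 • (dv s t - dv s' t') = 0 := by
        rw [smul_sub, sub_eq_add_neg, ← neg_smul, ← hg1]; exact hsum
      rcases smul_eq_zero.1 this with h3 | h3
      · exact absurd h3 hz
      · exact sub_eq_zero.1 h3
  refine ⟨p + (-(g 0 / g 2)) • dv s t, ?_, ?_⟩
  · have := AffineSubspace.vadd_mem_of_mem_direction
      (Submodule.smul_mem _ (-(g 0 / g 2)) (dv_mem_dir (A := A) (B := B) h)) hpm
    rwa [vadd_eq_add, add_comm] at this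
  · have := AffineSubspace.vadd_mem_of_mem_direction
      (Submodule.smul_mem _ (g 1 / g 2) (dv_mem_dir (A := A') (B := B') h')) hpm'
    rw [vadd_eq_add] at this
    have e : (g 1 / g 2) • dv s' t' + p' = p + (-(g 0 / g 2)) • dv s t := by
      funext j
      have ej := congrFun hsum j
      simp only [Pi.add_apply, Pi.smul_apply, smul_eq_mul, Pi.sub_apply, Pi.zero_apply] at ej ⊢
      field_simp
      linear_combination ej
    rwa [e] at this

theorem dv_inj {s t s' t' : ℝ} (h : s < t) (h' : s' < t') (hd : dv s t = dv s' t') :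
    s = s' ∧ t = t' := by
  have h0 := congrFun hd 0
  have h1 := congrFun hd 1
  simp only [dv0, dv1] at h0 h1
  have hsum : s + t = s' + t' := by linarith
  have h2 : (s - s') * (s - t') = 0 := by
    have : t = s' + t' - s := by linarith
    subst this
    linear_combination -h0
  rcases mul_eq_zero.1 h2 with h3 | h3
  · have : s = s' := by linarith
    exact ⟨this, by linarith⟩
  · exfalso
    have : s = t' := by linarith
    linarith

end H137JN
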