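import Mathlib

/-!
# Joints of lines in three-space: definitions
-/

namespace H137JN

open scoped Classical

/-- Three-dimensional space. -/
abbrev Pt := Fin 3 → ℝ

/-- A line: a nonempty affine subspace of dimension one. -/
def IsLine (l : AffineSubspace ℝ Pt) : Prop :=
  (l : Set Pt).Nonempty ∧ Module.finrank ℝ l.direction = 1

/-- A plane: a nonempty affine subspace of dimension two. -/
def IsPlane (π : AffineSubspace ℝ Pt) : Prop :=
  (π : Set Pt).Nonempty ∧ Module.finrank ℝ π.direction = 2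

/-- `p` is a joint of the set `L` of lines: it lies on three lines of `L` with linearly independent
direction vectors. -/
def IsJoint (L : Finset (AffineSubspace ℝ Pt)) (p : Pt) : Prop :=
  ∃ l₁ ∈ L, ∃ l₂ ∈ L, ∃ l₃ ∈ L, p ∈ l₁ ∧ p ∈ l₂ ∧ p ∈ l₃ ∧
    ∃ v₁ ∈ l₁.direction, ∃ v₂ ∈ l₂.direction, ∃ v₃ ∈ l₃.direction,
      LinearIndependent ℝ ![v₁, v₂, v₃]

/-- The number of joints. -/
noncomputable def numJoints (L : Finset (AffineSubspace ℝ Pt)) : ℕ :=
  Set.ncard {p : Pt | IsJoint L p}

/-- A finite generic set of planes: no two are parallel, no three contain a common line and no four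
pass through a common point. -/
structure GenericPlanes (H : Finset (AffineSubspace ℝ Pt)) : Prop where
  plane : ∀ π ∈ H, IsPlane π
  notParallel : ∀ π ∈ H, ∀ π' ∈ H, π ≠ π' → ¬ π.Parallel π'
  noThree : ∀ T ⊆ H, T.card = 3 → ¬ ∃ l : AffineSubspace ℝ Pt, IsLine l ∧ ∀ π ∈ T, l ≤ π
  noFour : ∀ T ⊆ H, T.card = 4 → ¬ ∃ p : Pt, ∀ π ∈ T, p ∈ π

/-- The set `L(H)` of all intersections of two different planes of `H`. -/
noncomputable def planeLines (H : Finset (AffineSubspace ℝ Pt)) : Finset (AffineSubspace ℝ Pt) :=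
  H.offDiag.image fun x => x.1 ⊓ x.2

end H137JN
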