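import Pool.Agent.H137R4.JN.Basic

namespace H137JN

open scoped Classical
open Module Finset

/-- The plane with direction number `t` and shift number `a`. -/
noncomputable def P (N t a : ℕ) : AffineSubspace ℝ Pt := pl (t : ℝ) ((t : ℝ) ^ 3 + (a : ℝ) / (4 * N))

theorem mem_P {N t a : ℕ} {x : Pt} :
    x ∈ P N t a ↔ x 0 + (t : ℝ) * x 1 + (t : ℝ) ^ 2 * x 2 = (t : ℝ) ^ 3 + (a : ℝ) / (4 * N) := Iff.rfl

theorem shift_inj {N t a b : ℕ} (hN : 0 < N)
    (h : (t : ℝ) ^ 3 + (a : ℝ) / (4 * N) = (t : ℝ) ^ 3 + (b : ℝ) / (4 * N)) : a = b := by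
  have hN' : (0 : ℝ) < 4 * N := by positivity
  have h1 : (a : ℝ) / (4 * N) = (b : ℝ) / (4 * N) := by linarith
  rw [div_left_inj' hN'.ne'] at h1
  exact_mod_cast h1

theorem mem_P_inj {N t a b : ℕ} {x : Pt} (hN : 0 < N) (h1 : x ∈ P N t a) (h2 : x ∈ P N t b) :
    a = b := by
  rw [mem_P] at h1 h2
  exact shift_inj hN (h1.symm.trans h2)

theorem inv_abs_le {a b c d : ℕ} (h1 : a ≠ b) (h2 : a ≠ c) (h3 : a ≠ d) :
    |1 / (((a : ℝ) - b) * ((a : ℝ) - c) * ((a : ℝ) - d))| ≤ 1 := by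
  have k1 : ((a : ℤ) - b) ≠ 0 := by omega
  have k2 : ((a : ℤ) - c) ≠ 0 := by omega
  have k3 : ((a : ℤ) - d) ≠ 0 := by omega
  have k : (1 : ℤ) ≤ |((a : ℤ) - b) * ((a : ℤ) - c) * ((a : ℤ) - d)| :=
    Int.one_le_abs (mul_ne_zero (mul_ne_zero k1 k2) k3)
  have k' : (1 : ℝ) ≤ |((a : ℝ) - b) * ((a : ℝ) - c) * ((a : ℝ) - d)| := by
    have : ((1 : ℤ) : ℝ) ≤ ((|((a : ℤ) - b) * ((a : ℤ) - c) * ((a : ℤ) - d)| : ℤ) : ℝ) := by
      exact_mod_cast k
    simpa using this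
  rw [abs_div, abs_one]
  exact (div_le_one (by linarith)).2 k'

/-- No four planes of the family with different direction numbers meet. -/
theorem no_four {x0 x1 x2 : ℝ} {a b c d : ℕ} {ea eb ec ed : ℝ}
    (hab : a ≠ b) (hac : a ≠ c) (had : a ≠ d) (hbc : b ≠ c) (hbd : b ≠ d) (hcd : c ≠ d)
    (ha0 : 0 ≤ ea) (ha1 : ea < 1 / 4) (hb0 : 0 ≤ eb) (hb1 : eb < 1 / 4)
    (hc0 : 0 ≤ ec) (hc1 : ec < 1 / 4) (hd0 : 0 ≤ ed) (hd1 : ed < 1 / 4)
    (ha : x0 + (a : ℝ) * x1 + (a : ℝ) ^ 2 * x2 = (a : ℝ) ^ 3 + ea)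
    (hb : x0 + (b : ℝ) * x1 + (b : ℝ) ^ 2 * x2 = (b : ℝ) ^ 3 + eb)
    (hc : x0 + (c : ℝ) * x1 + (c : ℝ) ^ 2 * x2 = (c : ℝ) ^ 3 + ec)
    (hd : x0 + (d : ℝ) * x1 + (d : ℝ) ^ 2 * x2 = (d : ℝ) ^ 3 + ed) : False := by
  have nab : (a : ℝ) - b ≠ 0 := sub_ne_zero.2 (by exact_mod_cast hab)
  have nac : (a : ℝ) - c ≠ 0 := sub_ne_zero.2 (by exact_mod_cast hac)
  have nad : (a : ℝ) - d ≠ 0 := sub_ne_zero.2 (by exact_mod_cast had)
  have nbc : (b : ℝ) - c ≠ 0 := sub_ne_zero.2 (by exact_mod_cast hbc)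
  have nbd : (b : ℝ) - d ≠ 0 := sub_ne_zero.2 (by exact_mod_cast hbd)
  have ncd : (c : ℝ) - d ≠ 0 := sub_ne_zero.2 (by exact_mod_cast hcd)
  have nba : (b : ℝ) - a ≠ 0 := sub_ne_zero.2 (by exact_mod_cast hab.symm)
  have nca : (c : ℝ) - a ≠ 0 := sub_ne_zero.2 (by exact_mod_cast hac.symm)
  have nda : (d : ℝ) - a ≠ 0 := sub_ne_zero.2 (by exact_mod_cast had.symm)
  have ncb : (c : ℝ) - b ≠ 0 := sub_ne_zero.2 (by exact_mod_cast hbc.symm)
  have ndb : (d : ℝ) - b ≠ 0 := sub_ne_zero.2 (by exact_mod_cast hbd.symm)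
  have ndc : (d : ℝ) - c ≠ 0 := sub_ne_zero.2 (by exact_mod_cast hcd.symm)
  set ca := 1 / (((a : ℝ) - b) * ((a : ℝ) - c) * ((a : ℝ) - d)) with hca
  set cb := 1 / (((b : ℝ) - a) * ((b : ℝ) - c) * ((b : ℝ) - d)) with hcb
  set cc := 1 / (((c : ℝ) - a) * ((c : ℝ) - b) * ((c : ℝ) - d)) with hcc
  set cd := 1 / (((d : ℝ) - a) * ((d : ℝ) - b) * ((d : ℝ) - c)) with hcd'
  have La : |ca| ≤ 1 := inv_abs_le hab hac had
  have Lb : |cb| ≤ 1 := inv_abs_le hab.symm hbc hbd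
  have Lc : |cc| ≤ 1 := inv_abs_le hac.symm hbc.symm hcd
  have Ld : |cd| ≤ 1 := inv_abs_le had.symm hbd.symm hcd.symm
  -- use the four equations as values of a cubic
  have key : ca * ea + cb * eb + cc * ec + cd * ed = -1 := by
    have e1 : ea = x0 + (a : ℝ) * x1 + (a : ℝ) ^ 2 * x2 - (a : ℝ) ^ 3 := by linarith
    have e2 : eb = x0 + (b : ℝ) * x1 + (b : ℝ) ^ 2 * x2 - (b : ℝ) ^ 3 := by linarith
    have e3 : ec = x0 + (c : ℝ) * x1 + (c : ℝ) ^ 2 * x2 - (c : ℝ) ^ 3 := by linarith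
    have e4 : ed = x0 + (d : ℝ) * x1 + (d : ℝ) ^ 2 * x2 - (d : ℝ) ^ 3 := by linarith
    have m0 : ca + cb + cc + cd = 0 := by
      rw [hca, hcb, hcc, hcd']; field_simp; ring
    have m1 : ca * a + cb * b + cc * c + cd * d = 0 := by
      rw [hca, hcb, hcc, hcd']; field_simp; ring
    have m2 : ca * (a : ℝ) ^ 2 + cb * (b : ℝ) ^ 2 + cc * (c : ℝ) ^ 2 + cd * (d : ℝ) ^ 2 = 0 := by
      rw [hca, hcb, hcc, hcd']; field_simp; ring
    have m3 : ca * (a : ℝ) ^ 3 + cb * (b : ℝ) ^ 3 + cc * (c : ℝ) ^ 3 + cd * (d : ℝ) ^ 3 = 1 := by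
      rw [hca, hcb, hcc, hcd']; field_simp; ring
    rw [e1, e2, e3, e4]
    linear_combination x0 * m0 + x1 * m1 + x2 * m2 - m3
  have ba := abs_le.1 La
  have bb := abs_le.1 Lb
  have bc := abs_le.1 Lc
  have bd := abs_le.1 Ld
  have qa : -(1 / 4) < ca * ea := by nlinarith
  have qb : -(1 / 4) < cb * eb := by nlinarith
  have qc : -(1 / 4) < cc * ec := by nlinarith
  have qd : -(1 / 4) < cd * ed := by nlinarith
  linarith

theorem eps_bounds {N a : ℕ} (ha : a < N) : 0 ≤ (a : ℝ) / (4 * N) ∧ (a : ℝ) / (4 * N) < 1 / 4 := by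
  have hN : 0 < N := by omega
  have hN' : (0 : ℝ) < N := by exact_mod_cast hN
  have ha' : (a : ℝ) < N := by exact_mod_cast ha
  refine ⟨by positivity, ?_⟩
  rw [div_lt_iff₀ (by positivity)]
  linarith

/-- A point of three planes of the family is on no plane with a fourth direction number. -/
theorem mem_three {N s t u v a b c d : ℕ} {x : Pt} (hst : s < t) (htu : t < u)
    (ha : a < N) (hb : b < N) (hc : c < N) (hd : d < N)
    (h1 : x ∈ P N s a) (h2 : x ∈ P N t b) (h3 : x ∈ P N u c) (h4 : x ∈ P N v d) :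
    v = s ∨ v = t ∨ v = u := by
  by_contra hcon
  push Not at hcon
  obtain ⟨n1, n2, n3⟩ := hcon
  have ea := eps_bounds ha
  have eb := eps_bounds hb
  have ec := eps_bounds hc
  have ed := eps_bounds hd
  exact no_four (by omega : s ≠ t) (by omega : s ≠ u) (Ne.symm n1) (by omega : t ≠ u) (Ne.symm n2)
    (Ne.symm n3) ea.1 ea.2 eb.1 eb.2 ec.1 ec.2 ed.1 ed.2 h1 h2 h3 h4

/-- Two lines of the family through a common point lie in a common plane of the family. -/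
theorem share {N s t s' t' a b a' b' : ℕ} {x : Pt} (hst : s < t) (hst' : s' < t')
    (ha : a < N) (hb : b < N) (ha' : a' < N) (hb' : b' < N)
    (h1 : x ∈ P N s a) (h2 : x ∈ P N t b) (h3 : x ∈ P N s' a') (h4 : x ∈ P N t' b') :
    s' = s ∨ s' = t ∨ t' = s ∨ t' = t := by
  by_contra hcon
  push Not at hcon
  obtain ⟨n1, n2, n3, n4⟩ := hcon
  have ea := eps_bounds ha
  have eb := eps_bounds hb
  have ec := eps_bounds ha'
  have ed := eps_bounds hb'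
  exact no_four (by omega : s ≠ t) (Ne.symm n1) (Ne.symm n3) (Ne.symm n2) (Ne.symm n4)
    (by omega : s' ≠ t') ea.1 ea.2 eb.1 eb.2 ec.1 ec.2 ed.1 ed.2 h1 h2 h3 h4

/-! ### lines -/

/-- index set of the lines: `((t, s), (a, b))` with `s < t < N` and `a, b < N` -/
def LI (N : ℕ) : Finset ((Σ _ : ℕ, ℕ) × (ℕ × ℕ)) :=
  ((range N).sigma fun t => range t) ×ˢ (range N ×ˢ range N)

theorem mem_LI {N : ℕ} {x : (Σ _ : ℕ, ℕ) × (ℕ × ℕ)} :
    x ∈ LI N ↔ (x.1.1 < N ∧ x.1.2 < x.1.1) ∧ x.2.1 < N ∧ x.2.2 < N := by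
  simp [LI, Finset.mem_product, Finset.mem_sigma]

/-- the line with a given index -/
noncomputable def line (N : ℕ) (x : (Σ _ : ℕ, ℕ) × (ℕ × ℕ)) : AffineSubspace ℝ Pt :=
  P N x.1.2 x.2.1 ⊓ P N x.1.1 x.2.2

/-- the set of lines -/
noncomputable def LL (N : ℕ) : Finset (AffineSubspace ℝ Pt) := (LI N).image (line N)

theorem cast_ne {s t : ℕ} (h : s < t) : (s : ℝ) ≠ (t : ℝ) := by
  exact_mod_cast h.ne

theorem isLine_line {N : ℕ} {x} (hx : x ∈ LI N) : IsLine (line N x) := by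
  rw [mem_LI] at hx
  exact isLine_inf (cast_ne hx.1.2)

theorem line_inj {N : ℕ} {x y} (hx : x ∈ LI N) (hy : y ∈ LI N) (h : line N x = line N y) :
    x = y := by
  rw [mem_LI] at hx hy
  have hN : 0 < N := by omega
  have k1 : line N x ≤ P N y.1.2 y.2.1 := by rw [h]; exact inf_le_left
  have k2 : line N x ≤ P N y.1.1 y.2.2 := by rw [h]; exact inf_le_right
  have q1 := line_le_pl (cast_ne hx.1.2) k1
  have q2 := line_le_pl (cast_ne hx.1.2) k2
  obtain ⟨⟨t, s⟩, a, b⟩ := x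
  obtain ⟨⟨t', s'⟩, a', b'⟩ := y
  simp only at *
  have r1 : (s' = s ∧ a' = a) ∨ (s' = t ∧ a' = b) := by
    rcases q1 with ⟨u1, u2⟩ | ⟨u1, u2⟩
    · left
      have : s' = s := by exact_mod_cast u1
      subst this
      exact ⟨rfl, shift_inj hN u2⟩
    · right
      have : s' = t := by exact_mod_cast u1
      subst this
      exact ⟨rfl, shift_inj hN u2⟩
  have r2 : (t' = s ∧ b' = a) ∨ (t' = t ∧ b' = b) := by
    rcases q2 with ⟨u1, u2⟩ | ⟨u1, u2⟩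
    · left
      have : t' = s := by exact_mod_cast u1
      subst this
      exact ⟨rfl, shift_inj hN u2⟩
    · right
      have : t' = t := by exact_mod_cast u1
      subst this
      exact ⟨rfl, shift_inj hN u2⟩
  have e1 : s' = s ∧ a' = a ∧ t' = t ∧ b' = b := by omega
  obtain ⟨rfl, rfl, rfl, rfl⟩ := e1
  rfl

theorem card_LL (N : ℕ) : (LL N).card = (∑ t ∈ range N, t) * (N * N) := by
  unfold LL
  rw [Finset.card_image_of_injOn (fun x hx y hy h => line_inj hx hy h)]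
  simp [LI, Finset.card_product, Finset.card_sigma]

/-! ### joints -/

/-- the point of three planes -/
noncomputable def tp (s A t B u C : ℝ) : Pt :=
  let x2 := ((C - B) / (u - t) - (B - A) / (t - s)) / (u - s)
  let x1 := (B - A) / (t - s) - (s + t) * x2
  ![A - s * x1 - s ^ 2 * x2, x1, x2]

theorem tp_mem {s A t B u C : ℝ} (hst : s ≠ t) (hsu : s ≠ u) (htu : t ≠ u) :
    tp s A t B u C ∈ pl s A ∧ tp s A t B u C ∈ pl t B ∧ tp s A t B u C ∈ pl u C := by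
  have h1 : t - s ≠ 0 := sub_ne_zero.2 hst.symm
  have h2 : u - s ≠ 0 := sub_ne_zero.2 hsu.symm
  have h3 : u - t ≠ 0 := sub_ne_zero.2 htu.symm
  refine ⟨?_, ?_, ?_⟩
  · rw [mem_pl]; simp [tp]; ring
  · rw [mem_pl]; simp [tp]; field_simp; ring
  · rw [mem_pl]; simp [tp]; field_simp; ring

theorem tp_unique {s A t B u C : ℝ} (hst : s ≠ t) (hsu : s ≠ u) (htu : t ≠ u) {x y : Pt}
    (hx1 : x ∈ pl s A) (hx2 : x ∈ pl t B) (hx3 : x ∈ pl u C)
    (hy1 : y ∈ pl s A) (hy2 : y ∈ pl t B) (hy3 : y ∈ pl u C) : x = y := by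
  rw [mem_pl] at hx1 hx2 hx3 hy1 hy2 hy3
  have h1 : t - s ≠ 0 := sub_ne_zero.2 hst.symm
  have h2 : u - s ≠ 0 := sub_ne_zero.2 hsu.symm
  have h3 : u - t ≠ 0 := sub_ne_zero.2 htu.symm
  have e1 : (t - s) * ((x 1 - y 1) + (t + s) * (x 2 - y 2)) = 0 := by
    linear_combination hx2 - hx1 - hy2 + hy1
  have e2 : (u - s) * ((x 1 - y 1) + (u + s) * (x 2 - y 2)) = 0 := by
    linear_combination hx3 - hx1 - hy3 + hy1
  have e1' := (mul_eq_zero.1 e1).resolve_left h1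
  have e2' := (mul_eq_zero.1 e2).resolve_left h2
  have e3 : (u - t) * (x 2 - y 2) = 0 := by linear_combination e2' - e1'
  have e3' := (mul_eq_zero.1 e3).resolve_left h3
  have x2 : x 2 = y 2 := by linarith
  have x1 : x 1 = y 1 := by rw [x2] at e1'; linarith
  have x0 : x 0 = y 0 := by rw [x1, x2] at hx1; linarith
  funext i
  fin_cases i
  · exact x0
  · exact x1
  · exact x2

/-- index set of the joints -/
def TI (N : ℕ) : Finset ((Σ _ : ℕ, Σ _ : ℕ, ℕ) × (ℕ × ℕ × ℕ)) :=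
  ((range N).sigma fun u => (range u).sigma fun t => range t) ×ˢ (range N ×ˢ range N ×ˢ range N)

theorem mem_TI {N : ℕ} {x : (Σ _ : ℕ, Σ _ : ℕ, ℕ) × (ℕ × ℕ × ℕ)} :
    x ∈ TI N ↔ (x.1.1 < N ∧ x.1.2.1 < x.1.1 ∧ x.1.2.2 < x.1.2.1) ∧
      x.2.1 < N ∧ x.2.2.1 < N ∧ x.2.2.2 < N := by
  simp [TI, Finset.mem_product, Finset.mem_sigma]

/-- the joint with a given index: planes `(s, a)`, `(t, b)`, `(u, c)` -/
noncomputable def jp (N : ℕ) (x : (Σ _ : ℕ, Σ _ : ℕ, ℕ) × (ℕ × ℕ × ℕ)) : Pt :=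
  tp (x.1.2.2 : ℝ) ((x.1.2.2 : ℝ) ^ 3 + (x.2.1 : ℝ) / (4 * N))
    (x.1.2.1 : ℝ) ((x.1.2.1 : ℝ) ^ 3 + (x.2.2.1 : ℝ) / (4 * N))
    (x.1.1 : ℝ) ((x.1.1 : ℝ) ^ 3 + (x.2.2.2 : ℝ) / (4 * N))

theorem jp_mem {N : ℕ} {x} (hx : x ∈ TI N) :
    jp N x ∈ P N x.1.2.2 x.2.1 ∧ jp N x ∈ P N x.1.2.1 x.2.2.1 ∧ jp N x ∈ P N x.1.1 x.2.2.2 := by
  rw [mem_TI] at hx
  exact tp_mem (cast_ne hx.1.2.2) (cast_ne (by omega)) (cast_ne hx.1.2.1)

theorem jp_inj {N : ℕ} {x y} (hx : x ∈ TI N) (hy : y ∈ TI N) (h : jp N x = jp N y) : x = y := by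
  have mx := jp_mem hx
  have my := jp_mem hy
  rw [← h] at my
  rw [mem_TI] at hx hy
  have hN : 0 < N := by omega
  obtain ⟨⟨u, t, s⟩, a, b, c⟩ := x
  obtain ⟨⟨u', t', s'⟩, a', b', c'⟩ := y
  simp only at *
  have q1 := mem_three hx.1.2.2 hx.1.2.1 hx.2.1 hx.2.2.1 hx.2.2.2 hy.2.1 mx.1 mx.2.1 mx.2.2 my.1
  have q2 := mem_three hx.1.2.2 hx.1.2.1 hx.2.1 hx.2.2.1 hx.2.2.2 hy.2.2.1 mx.1 mx.2.1 mx.2.2 my.2.1
  have q3 := mem_three hx.1.2.2 hx.1.2.1 hx.2.1 hx.2.2.1 hx.2.2.2 hy.2.2.2 mx.1 mx.2.1 mx.2.2 my.2.2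
  have e : s' = s ∧ t' = t ∧ u' = u := by omega
  obtain ⟨rfl, rfl, rfl⟩ := e
  have e1 := mem_P_inj hN mx.1 my.1
  have e2 := mem_P_inj hN mx.2.1 my.2.1
  have e3 := mem_P_inj hN mx.2.2 my.2.2
  subst e1 e2 e3
  rfl

theorem li_dirs {s t u : ℝ} (hst : s ≠ t) (hsu : s ≠ u) (htu : t ≠ u) :
    LinearIndependent ℝ ![dv s t, dv s u, dv t u] := by
  rw [Fintype.linearIndependent_iff]
  intro g hg
  rw [Fin.sum_univ_three] at hg
  simp only [Matrix.cons_val_zero, Matrix.cons_val_one, Matrix.cons_val_two,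
    Matrix.tail_cons, Matrix.head_cons] at hg
  have c0 := congrFun hg 0
  have c1 := congrFun hg 1
  have c2 := congrFun hg 2
  simp at c0 c1 c2
  have h1 : (u - s) * (u - t) ≠ 0 := mul_ne_zero (sub_ne_zero.2 hsu.symm) (sub_ne_zero.2 htu.symm)
  have h2 : (t - s) * (t - u) ≠ 0 := mul_ne_zero (sub_ne_zero.2 hst.symm) (sub_ne_zero.2 htu)
  have h3 : (s - t) * (s - u) ≠ 0 := mul_ne_zero (sub_ne_zero.2 hst) (sub_ne_zero.2 hsu)
  have g0 : g 0 = 0 := by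
    have : ((u - s) * (u - t)) * g 0 = 0 := by linear_combination c0 + u * c1 + u ^ 2 * c2
    exact (mul_eq_zero.1 this).resolve_left h1
  have g1 : g 1 = 0 := by
    have : ((t - s) * (t - u)) * g 1 = 0 := by linear_combination c0 + t * c1 + t ^ 2 * c2
    exact (mul_eq_zero.1 this).resolve_left h2
  have g2 : g 2 = 0 := by
    have : ((s - t) * (s - u)) * g 2 = 0 := by linear_combination c0 + s * c1 + s ^ 2 * c2
    exact (mul_eq_zero.1 this).resolve_left h3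
  intro i
  fin_cases i
  · exact g0
  · exact g1
  · exact g2

/-- three planes with different direction numbers through a point make it an indexed joint -/
theorem three_planes {N s t u a b c : ℕ} {p : Pt} (_hs : s < N) (ht : t < N) (hu : u < N)
    (ha : a < N) (hb : b < N) (hc : c < N) (hst : s < t) (hus : u ≠ s) (hut : u ≠ t)
    (h1 : p ∈ P N s a) (h2 : p ∈ P N t b) (h3 : p ∈ P N u c) : ∃ y ∈ TI N, jp N y = p := by
  rcases lt_or_gt_of_ne hus with k | k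
  · refine ⟨(⟨t, s, u⟩, c, a, b), ?_, ?_⟩
    · rw [mem_TI]; exact ⟨⟨ht, hst, k⟩, hc, ha, hb⟩
    · have hy : ((⟨t, s, u⟩, c, a, b) : (Σ _ : ℕ, Σ _ : ℕ, ℕ) × (ℕ × ℕ × ℕ)) ∈ TI N := by
        rw [mem_TI]; exact ⟨⟨ht, hst, k⟩, hc, ha, hb⟩
      have my := jp_mem hy
      exact tp_unique (cast_ne k) (cast_ne (by omega)) (cast_ne hst) my.1 my.2.1 my.2.2 h3 h1 h2
  · rcases lt_or_gt_of_ne hut with k' | k'
    · have hy : ((⟨t, u, s⟩, a, c, b) : (Σ _ : ℕ, Σ _ : ℕ, ℕ) × (ℕ × ℕ × ℕ)) ∈ TI N := by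
        rw [mem_TI]; exact ⟨⟨ht, k', k⟩, ha, hc, hb⟩
      refine ⟨_, hy, ?_⟩
      have my := jp_mem hy
      exact tp_unique (cast_ne k) (cast_ne hst) (cast_ne k') my.1 my.2.1 my.2.2 h1 h3 h2
    · have hy : ((⟨u, t, s⟩, a, b, c) : (Σ _ : ℕ, Σ _ : ℕ, ℕ) × (ℕ × ℕ × ℕ)) ∈ TI N := by
        rw [mem_TI]; exact ⟨⟨hu, k', hst⟩, ha, hb, hc⟩
      refine ⟨_, hy, ?_⟩
      have my := jp_mem hy
      exact tp_unique (cast_ne hst) (cast_ne (by omega)) (cast_ne k') my.1 my.2.1 my.2.2 h1 h2 h3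

theorem isJoint_iff (N : ℕ) (p : Pt) : IsJoint (LL N) p ↔ ∃ y ∈ TI N, jp N y = p := by
  constructor
  · rintro ⟨l₁, hl₁, l₂, hl₂, l₃, -, hp₁, hp₂, -, v₁, hv₁, v₂, hv₂, v₃, -, hli⟩
    obtain ⟨x, hx, rfl⟩ := Finset.mem_image.1 hl₁
    obtain ⟨x', hx', rfl⟩ := Finset.mem_image.1 hl₂
    rw [mem_LI] at hx hx'
    have hN : 0 < N := by omega
    obtain ⟨⟨t, s⟩, a, b⟩ := x
    obtain ⟨⟨t', s'⟩, a', b'⟩ := x'
    simp only at hx hx'
    have m1 : p ∈ P N s a := hp₁.1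
    have m2 : p ∈ P N t b := hp₁.2
    have m3 : p ∈ P N s' a' := hp₂.1
    have m4 : p ∈ P N t' b' := hp₂.2
    by_cases c1 : s' = s ∨ s' = t
    · by_cases c2 : t' = s ∨ t' = t
      · exfalso
        have e : s' = s ∧ t' = t := by omega
        obtain ⟨rfl, rfl⟩ := e
        have e1 := mem_P_inj hN m1 m3
        have e2 := mem_P_inj hN m2 m4
        subst e1 e2
        have w1 := (mem_dir_inf (cast_ne hx.1.2)).1 hv₁
        have w2 := (mem_dir_inf (cast_ne hx.1.2)).1 hv₂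
        rw [Fintype.linearIndependent_iff] at hli
        have z := hli ![v₂ 2, -(v₁ 2), 0] (by
          rw [Fin.sum_univ_three]
          simp only [Matrix.cons_val_zero, Matrix.cons_val_one, Matrix.cons_val_two,
            Matrix.tail_cons, Matrix.head_cons]
          rw [zero_smul, add_zero]
          funext j
          have j1 := congrFun w1 j
          have j2 := congrFun w2 j
          simp only [Pi.add_apply, Pi.smul_apply, smul_eq_mul, Pi.zero_apply] at j1 j2 ⊢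
          rw [j1, j2]; ring)
        have z0 : v₂ 2 = 0 := z 0
        have z1 : v₁ = v₁ := rfl
        have z3 := hli ![0, 1, 0] (by
          rw [Fin.sum_univ_three]
          simp only [Matrix.cons_val_zero, Matrix.cons_val_one, Matrix.cons_val_two,
            Matrix.tail_cons, Matrix.head_cons]
          rw [w2, z0]; simp) 1
        simp at z3
      · push Not at c2
        exact three_planes (by omega) (by omega) (by omega) hx.2.1 hx.2.2 hx'.2.2 hx.1.2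
          c2.1 c2.2 m1 m2 m4
    · push Not at c1
      exact three_planes (by omega) (by omega) (by omega) hx.2.1 hx.2.2 hx'.2.1 hx.1.2
        c1.1 c1.2 m1 m2 m3
  · rintro ⟨y, hy, rfl⟩
    have my := jp_mem hy
    rw [mem_TI] at hy
    obtain ⟨⟨u, t, s⟩, a, b, c⟩ := y
    simp only at *
    have hst := hy.1.2.2
    have htu := hy.1.2.1
    refine ⟨line N (⟨t, s⟩, a, b), Finset.mem_image_of_mem _
        (mem_LI.2 ⟨⟨(by omega : t < N), hst⟩, (by omega : a < N), (by omega : b < N)⟩),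
      line N (⟨u, s⟩, a, c), Finset.mem_image_of_mem _
        (mem_LI.2 ⟨⟨(by omega : u < N), (by omega : s < u)⟩, (by omega : a < N), (by omega : c < N)⟩),
      line N (⟨u, t⟩, b, c), Finset.mem_image_of_mem _
        (mem_LI.2 ⟨⟨(by omega : u < N), htu⟩, (by omega : b < N), (by omega : c < N)⟩),
      ⟨my.1, my.2.1⟩, ⟨my.1, my.2.2⟩, ⟨my.2.1, my.2.2⟩,
      dv s t, dv_mem_dir (cast_ne hst), dv s u, dv_mem_dir (cast_ne (show s < u by omega)),
      dv t u, dv_mem_dir (cast_ne htu),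
      li_dirs (cast_ne hst) (cast_ne (by omega)) (cast_ne htu)⟩

theorem numJoints_LL (N : ℕ) :
    numJoints (LL N) = (∑ u ∈ range N, ∑ t ∈ range u, t) * (N * (N * N)) := by
  have hset : {p : Pt | IsJoint (LL N) p} = ((TI N).image (jp N) : Set Pt) := by
    ext p
    rw [Finset.mem_coe, Finset.mem_image]
    exact isJoint_iff N p
  unfold numJoints
  rw [hset, Set.ncard_coe_finset, Finset.card_image_of_injOn (fun x hx y hy h => jp_inj hx hy h)]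
  simp [TI, Finset.card_product, Finset.card_sigma]

end H137JN
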