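import Pool.Agent.H137R4.JN.Family

namespace H137JN

open scoped Classical
open Module Finset

/-- two different non-parallel planes meet in a line -/
theorem isLine_of_planes {π π' : AffineSubspace ℝ Pt} (h : IsPlane π) (h' : IsPlane π')
    (hpar : ¬ π.Parallel π') : IsLine (π ⊓ π') := by
  have hdne : π.direction ≠ π'.direction := by
    intro hd
    apply hpar
    rw [AffineSubspace.parallel_iff_direction_eq_and_eq_bot_iff_eq_bot]
    refine ⟨hd, ?_⟩
    have e1 : π ≠ ⊥ := (AffineSubspace.nonempty_iff_ne_bot π).1 h.1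
    have e2 : π' ≠ ⊥ := (AffineSubspace.nonempty_iff_ne_bot π').1 h'.1
    exact ⟨fun e => absurd e e1, fun e => absurd e e2⟩
  have hfin : finrank ℝ Pt = 3 := by simp
  have hlt : finrank ℝ π.direction < finrank ℝ (π.direction ⊔ π'.direction : Submodule ℝ Pt) := by
    apply Submodule.finrank_lt_finrank_of_lt
    refine lt_of_le_of_ne le_sup_left ?_
    intro he
    have hle : π'.direction ≤ π.direction := by rw [he]; exact le_sup_right
    exact hdne (Submodule.eq_of_le_of_finrank_le hle (by rw [h.2, h'.2])).symm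
  have hsup3 : finrank ℝ (π.direction ⊔ π'.direction : Submodule ℝ Pt) = 3 := by
    have h2 := Submodule.finrank_le (π.direction ⊔ π'.direction : Submodule ℝ Pt)
    rw [hfin] at h2
    rw [h.2] at hlt
    omega
  have htop : π.direction ⊔ π'.direction = ⊤ := by
    apply Submodule.eq_top_of_finrank_eq
    rw [hsup3, hfin]
  obtain ⟨p, hp⟩ := AffineSubspace.inter_nonempty_of_nonempty_of_sup_direction_eq_top h.1 h'.1 htop
  have hpm : p ∈ π ⊓ π' := hp
  refine ⟨⟨p, hpm⟩, ?_⟩
  rw [AffineSubspace.direction_inf_of_mem_inf hpm]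
  have := Submodule.finrank_sup_add_finrank_inf_eq π.direction π'.direction
  rw [hsup3, h.2, h'.2] at this
  omega

/-- the planes of the family -/
noncomputable def PL (N : ℕ) : Finset (AffineSubspace ℝ Pt) :=
  (range N ×ˢ range N).image fun x => P N x.1 x.2

theorem P_direction (N t a b : ℕ) : (P N t a).direction = (P N t b).direction := by
  ext v
  show v ∈ (pl _ _).direction ↔ v ∈ (pl _ _).direction
  rw [mem_dir_pl, mem_dir_pl]

theorem P_parallel (N t a b : ℕ) : (P N t a).Parallel (P N t b) := by
  rw [AffineSubspace.parallel_iff_direction_eq_and_eq_bot_iff_eq_bot]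
  refine ⟨P_direction N t a b, ?_⟩
  have e1 : P N t a ≠ ⊥ := (AffineSubspace.nonempty_iff_ne_bot _).1 (pl_nonempty _ _)
  have e2 : P N t b ≠ ⊥ := (AffineSubspace.nonempty_iff_ne_bot _).1 (pl_nonempty _ _)
  exact ⟨fun e => absurd e e1, fun e => absurd e e2⟩

variable {H : Finset (AffineSubspace ℝ Pt)}

/-- a generic set contains at most `N` planes of the family -/
theorem card_inter (hH : GenericPlanes H) (N : ℕ) : (H.filter (· ∈ PL N)).card ≤ N := by
  have hch : ∀ π ∈ H.filter (· ∈ PL N), ∃ t, t < N ∧ ∃ a, P N t a = π := by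
    intro π hπ
    rw [Finset.mem_filter] at hπ
    obtain ⟨x, hx, he⟩ := Finset.mem_image.1 hπ.2
    rw [Finset.mem_product, Finset.mem_range, Finset.mem_range] at hx
    exact ⟨x.1, hx.1, x.2, he⟩
  choose! f hf1 hf2 using hch
  calc (H.filter (· ∈ PL N)).card ≤ (range N).card := by
        apply Finset.card_le_card_of_injOn f
        · intro π hπ
          exact Finset.mem_coe.2 (Finset.mem_range.2 (hf1 π hπ))
        · intro π hπ π' hπ' he
          by_contra hne
          obtain ⟨a, ha⟩ := hf2 π hπ
          obtain ⟨b, hb⟩ := hf2 π' hπ'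
          have hπ1 := (Finset.mem_filter.1 (Finset.mem_coe.1 hπ)).1
          have hπ1' := (Finset.mem_filter.1 (Finset.mem_coe.1 hπ')).1
          apply hH.notParallel π hπ1 π' hπ1' hne
          rw [← ha, ← hb, he]
          exact P_parallel N _ a b
    _ = N := Finset.card_range N

/-- a plane outside the family contains at most `N` lines of the configuration -/
theorem card_lines_in (N : ℕ) {π : AffineSubspace ℝ Pt} (hπ : IsPlane π) (hnot : π ∉ PL N) :
    ((LL N).filter (· ≤ π)).card ≤ N := by
  have h1 : (LL N).filter (· ≤ π) = ((LI N).filter (fun x => line N x ≤ π)).image (line N) := by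
    ext l
    simp only [LL, Finset.mem_filter, Finset.mem_image]
    constructor
    · rintro ⟨⟨x, hx, rfl⟩, hl⟩
      exact ⟨x, ⟨hx, hl⟩, rfl⟩
    · rintro ⟨x, ⟨hx, hl⟩, rfl⟩
      exact ⟨⟨x, hx, rfl⟩, hl⟩
  rw [h1]
  refine le_trans Finset.card_image_le ?_
  have key : ∀ x ∈ (LI N).filter (fun x => line N x ≤ π),
      ∀ y ∈ (LI N).filter (fun x => line N x ≤ π), x.2.1 = y.2.1 → x = y := by
    intro x hx y hy hxy
    rw [Finset.mem_filter] at hx hy
    by_contra hne
    have hlne : line N x ≠ line N y := fun h => hne (line_inj hx.1 hy.1 h)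
    have lx := isLine_line hx.1
    have ly := isLine_line hy.1
    obtain ⟨hx1, hx2⟩ := hx
    obtain ⟨hy1, hy2⟩ := hy
    rw [mem_LI] at hx1 hy1
    have hN : 0 < N := by omega
    obtain ⟨⟨t, s⟩, a, b⟩ := x
    obtain ⟨⟨t', s'⟩, a', b'⟩ := y
    simp only at hx1 hy1 hxy
    -- if both lines lie in one plane of the family we are done
    have fin : ∀ u c, u < N → c < N → line N (⟨t, s⟩, a, b) ≤ P N u c →
        line N (⟨t', s'⟩, a', b') ≤ P N u c → False := by
      intro u c hu hc k1 k2
      apply hnot
      have := plane_eq_pl hπ lx ly hlne hx2 hy2 k1 k2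
      rw [PL, Finset.mem_image]
      exact ⟨(u, c), by simp [hu, hc], this.symm⟩
    by_cases hd : dv (s : ℝ) t = dv (s' : ℝ) t'
    · have := dv_inj (by exact_mod_cast hx1.1.2) (by exact_mod_cast hy1.1.2) hd
      have e1 : s = s' := by exact_mod_cast this.1
      subst e1
      subst hxy
      exact fin s a (by omega) (by omega) inf_le_left inf_le_left
    · obtain ⟨q, hq1, hq2⟩ := lines_meet hπ (cast_ne hx1.1.2) (cast_ne hy1.1.2) hx2 hy2 hd
      have m1 : q ∈ P N s a := hq1.1
      have m2 : q ∈ P N t b := hq1.2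
      have m3 : q ∈ P N s' a' := hq2.1
      have m4 : q ∈ P N t' b' := hq2.2
      rcases share hx1.1.2 hy1.1.2 hx1.2.1 hx1.2.2 hy1.2.1 hy1.2.2 m1 m2 m3 m4 with e | e | e | e
      · subst e
        have := mem_P_inj hN m1 m3
        subst this
        exact fin s' a (by omega) (by omega) inf_le_left inf_le_left
      · subst e
        have := mem_P_inj hN m2 m3
        subst this
        exact fin s' b (by omega) (by omega) inf_le_right inf_le_left
      · subst e
        have := mem_P_inj hN m1 m4
        subst this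
        exact fin t' a (by omega) (by omega) inf_le_left inf_le_right
      · subst e
        have := mem_P_inj hN m2 m4
        subst this
        exact fin t' b (by omega) (by omega) inf_le_right inf_le_right
  calc ((LI N).filter (fun x => line N x ≤ π)).card ≤ (range N).card := by
        apply Finset.card_le_card_of_injOn (fun x => x.2.1)
        · intro x hx
          have hx' := (Finset.mem_filter.1 (Finset.mem_coe.1 hx)).1
          rw [mem_LI] at hx'
          exact Finset.mem_coe.2 (Finset.mem_range.2 hx'.2.1)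
        · intro x hx y hy h
          exact key x hx y hy h
    _ = N := Finset.card_range N

/-- few common lines -/
theorem card_common (hH : GenericPlanes H) (N : ℕ) :
    (LL N ∩ planeLines H).card ≤ N * N + H.card * N := by
  set H1 := H.filter (· ∈ PL N) with hH1
  have hsub : LL N ∩ planeLines H ⊆ ((H1 ×ˢ H1).image fun x => x.1 ⊓ x.2) ∪
      (H.filter (· ∉ PL N)).biUnion fun π => (LL N).filter (· ≤ π) := by
    intro l hl
    rw [Finset.mem_inter] at hl
    obtain ⟨h1, h2⟩ := hl
    obtain ⟨x, hx, rfl⟩ := Finset.mem_image.1 h2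
    rw [Finset.mem_offDiag] at hx
    rw [Finset.mem_union]
    by_cases c1 : x.1 ∈ PL N
    · by_cases c2 : x.2 ∈ PL N
      · left
        refine Finset.mem_image.2 ⟨x, ?_, rfl⟩
        rw [Finset.mem_product, hH1, Finset.mem_filter, Finset.mem_filter]
        exact ⟨⟨hx.1, c1⟩, ⟨hx.2.1, c2⟩⟩
      · right
        rw [Finset.mem_biUnion]
        refine ⟨x.2, Finset.mem_filter.2 ⟨hx.2.1, c2⟩, Finset.mem_filter.2 ⟨h1, inf_le_right⟩⟩
    · right
      rw [Finset.mem_biUnion]
      refine ⟨x.1, Finset.mem_filter.2 ⟨hx.1, c1⟩, Finset.mem_filter.2 ⟨h1, inf_le_left⟩⟩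
  refine le_trans (Finset.card_le_card hsub) (le_trans (Finset.card_union_le _ _) ?_)
  apply Nat.add_le_add
  · refine le_trans Finset.card_image_le ?_
    rw [Finset.card_product]
    exact Nat.mul_le_mul (card_inter hH N) (card_inter hH N)
  · refine le_trans (Finset.card_biUnion_le_card_mul _ _ N ?_) ?_
    · intro π hπ
      rw [Finset.mem_filter] at hπ
      exact card_lines_in N (hH.plane π hπ.1) hπ.2
    · exact Nat.mul_le_mul_right _ (Finset.card_filter_le _ _)

/-- many lines -/
theorem card_planeLines (hH : GenericPlanes H) :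
    H.card * H.card - H.card ≤ 2 * (planeLines H).card := by
  rw [← Finset.offDiag_card]
  unfold planeLines
  apply Finset.card_le_mul_card_image
  intro l hl
  obtain ⟨x, hx, rfl⟩ := Finset.mem_image.1 hl
  rw [Finset.mem_offDiag] at hx
  have hline : IsLine (x.1 ⊓ x.2) :=
    isLine_of_planes (hH.plane _ hx.1) (hH.plane _ hx.2.1) (hH.notParallel _ hx.1 _ hx.2.1 hx.2.2)
  set T := H.filter (fun π => x.1 ⊓ x.2 ≤ π) with hT
  have hT2 : T.card ≤ 2 := by
    by_contra hcon
    push Not at hcon
    obtain ⟨T', hT', hc⟩ := Finset.exists_subset_card_eq (show 3 ≤ T.card by omega)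
    refine hH.noThree T' (hT'.trans (Finset.filter_subset _ _)) hc ⟨x.1 ⊓ x.2, hline, ?_⟩
    intro π hπ
    exact (Finset.mem_filter.1 (hT' hπ)).2
  have hsub : (H.offDiag.filter fun y => y.1 ⊓ y.2 = x.1 ⊓ x.2) ⊆ T.offDiag := by
    intro y hy
    rw [Finset.mem_filter, Finset.mem_offDiag] at hy
    rw [Finset.mem_offDiag, hT, Finset.mem_filter, Finset.mem_filter]
    refine ⟨⟨hy.1.1, ?_⟩, ⟨hy.1.2.1, ?_⟩, hy.1.2.2⟩
    · rw [← hy.2]; exact inf_le_left
    · rw [← hy.2]; exact inf_le_right
  refine le_trans (Finset.card_le_card hsub) ?_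
  rw [Finset.offDiag_card]
  interval_cases T.card <;> simp

end H137JN
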