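import Pool.Agent.H137R4.JN.Generic

namespace H137JN

open scoped Classical
open Module Finset Filter Topology

theorem sum1 (N : ℕ) : ((∑ t ∈ range N, t : ℕ) : ℝ) = (N : ℝ) * ((N : ℝ) - 1) / 2 := by
  induction N with
  | zero => simp
  | succ n ih => rw [Finset.sum_range_succ]; push_cast at ih ⊢; rw [ih]; ring

theorem sum2 (N : ℕ) : ((∑ u ∈ range N, ∑ t ∈ range u, t : ℕ) : ℝ)
    = (N : ℝ) * ((N : ℝ) - 1) * ((N : ℝ) - 2) / 6 := by
  induction N with
  | zero => simp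
  | succ n ih =>
    rw [Finset.sum_range_succ, Nat.cast_add, ih, sum1]; push_cast; ring

theorem card_LL_real (N : ℕ) :
    ((LL N).card : ℝ) = (N : ℝ) ^ 3 * ((N : ℝ) - 1) / 2 := by
  rw [card_LL, Nat.cast_mul, sum1]; push_cast; ring

theorem numJoints_real (N : ℕ) :
    (numJoints (LL N) : ℝ) = (N : ℝ) ^ 4 * ((N : ℝ) - 1) * ((N : ℝ) - 2) / 6 := by
  rw [numJoints_LL, Nat.cast_mul, sum2]; push_cast; ring

theorem ratio_eq (k : ℕ) :
    (numJoints (LL (k + 2)) : ℝ) / ((LL (k + 2)).card : ℝ) ^ (3 / 2 : ℝ) =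
      Real.sqrt ((2 / 9) * (((k : ℝ) / ((k : ℝ) + 2)) * ((k : ℝ) / ((k : ℝ) + 1)))) := by
  have hk : (0 : ℝ) ≤ k := Nat.cast_nonneg k
  have hn : (0 : ℝ) < ((LL (k + 2)).card : ℝ) := by
    rw [card_LL_real]; push_cast
    have : (0 : ℝ) < (k : ℝ) + 2 - 1 := by linarith
    positivity
  have hJ : (0 : ℝ) ≤ (numJoints (LL (k + 2)) : ℝ) := Nat.cast_nonneg _
  have h1 : ((LL (k + 2)).card : ℝ) ^ (3 / 2 : ℝ) = Real.sqrt (((LL (k + 2)).card : ℝ) ^ 3) := by
    rw [Real.sqrt_eq_rpow, ← Real.rpow_natCast, ← Real.rpow_mul hn.le]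
    norm_num
  rw [h1]
  have h2 : (numJoints (LL (k + 2)) : ℝ) = Real.sqrt ((numJoints (LL (k + 2)) : ℝ) ^ 2) :=
    (Real.sqrt_sq hJ).symm
  rw [h2, ← Real.sqrt_div (by positivity)]
  congr 1
  rw [numJoints_real, card_LL_real]
  push_cast
  have e1 : (k : ℝ) + 2 ≠ 0 := by positivity
  have e2 : (k : ℝ) + 2 - 1 ≠ 0 := by
    have : (0 : ℝ) < (k : ℝ) + 2 - 1 := by linarith
    exact this.ne'
  have e3 : (k : ℝ) + 1 ≠ 0 := by positivity
  have e4 : (k : ℝ) + 2 - 1 = k + 1 := by ring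
  rw [e4]
  field_simp
  ring

theorem ratio_tendsto :
    Tendsto (fun k : ℕ => (numJoints (LL (k + 2)) : ℝ) / ((LL (k + 2)).card : ℝ) ^ (3 / 2 : ℝ))
      atTop (𝓝 (Real.sqrt 2 / 3)) := by
  have h1 : Tendsto (fun k : ℕ => (k : ℝ) / ((k : ℝ) + 2)) atTop (𝓝 1) :=
    tendsto_natCast_div_add_atTop 2
  have h2 : Tendsto (fun k : ℕ => (k : ℝ) / ((k : ℝ) + 1)) atTop (𝓝 1) :=
    tendsto_natCast_div_add_atTop 1
  have h3 := (h1.mul h2).const_mul (2 / 9 : ℝ)
  have h4 := h3.sqrt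
  have e : Real.sqrt (2 / 9 * (1 * 1)) = Real.sqrt 2 / 3 := by
    rw [mul_one, mul_one, Real.sqrt_div (by norm_num)]
    congr 1
    rw [show (9 : ℝ) = 3 ^ 2 by norm_num]
    exact Real.sqrt_sq (by norm_num)
  rw [e] at h4
  exact h4.congr (fun k => (ratio_eq k).symm)

theorem card_tendsto :
    Tendsto (fun k : ℕ => ((LL (k + 2)).card : ℝ)) atTop atTop := by
  refine tendsto_atTop_mono (f := fun k : ℕ => (k : ℝ)) ?_ tendsto_natCast_atTop_atTop
  intro k
  rw [card_LL_real]; push_cast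
  have hk : (0 : ℝ) ≤ k := Nat.cast_nonneg k
  nlinarith [mul_nonneg hk hk, mul_nonneg (mul_nonneg hk hk) hk,
    mul_nonneg (mul_nonneg hk hk) (mul_nonneg hk hk)]

theorem symm_card (A B : Finset (AffineSubspace ℝ Pt)) :
    ((symmDiff A B).card : ℝ) = A.card + B.card - 2 * ((A ∩ B).card : ℝ) := by
  have h1 : (symmDiff A B).card = (A \ B).card + (B \ A).card := by
    rw [symmDiff_def, Finset.sup_eq_union]
    exact Finset.card_union_of_disjoint disjoint_sdiff_sdiff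
  have h2 := Finset.card_sdiff_add_card_inter A B
  have h3 := Finset.card_sdiff_add_card_inter B A
  rw [Finset.inter_comm B A] at h3
  have h2' : ((A \ B).card : ℝ) + (A ∩ B).card = A.card := by exact_mod_cast h2
  have h3' : ((B \ A).card : ℝ) + (A ∩ B).card = B.card := by exact_mod_cast h3
  rw [h1]; push_cast; linarith

theorem far_bound {H : Finset (AffineSubspace ℝ Pt)} (hH : GenericPlanes H) (N : ℕ) :
    ((LL N).card : ℝ) - (4 * (N : ℝ) ^ 2 + N + 1) ≤ ((symmDiff (LL N) (planeLines H)).card : ℝ) := by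
  rw [symm_card]
  have h1 := card_common hH N
  have h2 := card_planeLines hH
  have h1' : ((LL N ∩ planeLines H).card : ℝ) ≤ N * N + H.card * N := by exact_mod_cast h1
  have h2' : (H.card : ℝ) * H.card - H.card ≤ 2 * (planeLines H).card := by
    have h3 : H.card * H.card ≤ 2 * (planeLines H).card + H.card := by omega
    have h4 : (H.card : ℝ) * H.card ≤ 2 * (planeLines H).card + H.card := by exact_mod_cast h3
    linarith
  nlinarith [sq_nonneg ((H.card : ℝ) - (2 * N + 1 / 2))]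

theorem far (η : ℝ) (hη : 0 < η) : ∀ᶠ k : ℕ in atTop, ∀ H, GenericPlanes H →
    (1 - η) * ((LL (k + 2)).card : ℝ) ≤ ((symmDiff (LL (k + 2)) (planeLines H)).card : ℝ) := by
  obtain ⟨K, hK⟩ := exists_nat_ge (16 / η)
  filter_upwards [eventually_ge_atTop K] with k hk H hH
  have h1 := far_bound hH (k + 2)
  refine le_trans ?_ h1
  have hk' : (16 / η) ≤ k := hK.trans (by exact_mod_cast hk)
  rw [div_le_iff₀ hη] at hk'
  have hk0 : (0 : ℝ) ≤ k := Nat.cast_nonneg k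
  have hc := card_LL_real (k + 2)
  push_cast at hc ⊢
  have hη' : η * ((LL (k + 2)).card : ℝ) ≥ 4 * ((k : ℝ) + 2) ^ 2 + (k + 2) + 1 := by
    rw [hc]
    have e : η * (((k : ℝ) + 2) ^ 3 * ((k : ℝ) + 2 - 1) / 2)
        = (η * k) * (((k : ℝ) + 2) ^ 3 / 2) + η * (((k : ℝ) + 2) ^ 3 / 2) := by ring
    rw [e]
    have h5 : (0 : ℝ) ≤ ((k : ℝ) + 2) ^ 3 / 2 := by positivity
    have h6 : 16 * (((k : ℝ) + 2) ^ 3 / 2) ≤ (η * k) * (((k : ℝ) + 2) ^ 3 / 2) :=
      mul_le_mul_of_nonneg_right (by linarith) h5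
    have h7 : 0 ≤ η * (((k : ℝ) + 2) ^ 3 / 2) := by positivity
    nlinarith [mul_nonneg hk0 hk0, mul_nonneg (mul_nonneg hk0 hk0) hk0]
  linarith

end H137JN
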